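import Mathlib
import Pool.Agent.VM.StmtsH

/-! STP: stationary phase modulo `p ^ e`. -/

set_option autoImplicit false

namespace Pool.Agent.VM.H37

open Pool.Agent.VM
open Pool.Agent.Helper69_Weyl (ee W)
open Pool.Agent.Helper69_Weyl

/-- splitting a complete system of residues modulo `A * B` -/
theorem sum_split (A B : ℕ) (hA : 0 < A) (F : ℕ → ℂ) :
    ∑ x ∈ Finset.range (A * B), F x = ∑ y ∈ Finset.range A, ∑ z ∈ Finset.range B, F (y + A * z) := by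
  rw [← Finset.sum_product']
  symm
  apply Finset.sum_nbij' (fun p : ℕ × ℕ => p.1 + A * p.2) (fun x : ℕ => (x % A, x / A))
  · rintro ⟨y, z⟩ h
    simp only [Finset.mem_product, Finset.mem_range] at h ⊢
    calc y + A * z < A + A * z := by omega
      _ = A * (z + 1) := by ring
      _ ≤ A * B := Nat.mul_le_mul_left A (by omega)
  · intro x h
    simp only [Finset.mem_product, Finset.mem_range] at h ⊢
    exact ⟨Nat.mod_lt _ hA, Nat.div_lt_of_lt_mul h⟩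
  · rintro ⟨y, z⟩ h
    simp only [Finset.mem_product, Finset.mem_range] at h
    ext
    · simp [Nat.add_mul_mod_self_left, Nat.mod_eq_of_lt h.1]
    · simp [Nat.add_mul_div_left _ _ hA, Nat.div_eq_of_lt h.1]
  · intro x _
    exact Nat.mod_add_div x A
  · rintro ⟨y, z⟩ _
    rfl

theorem ee_add_int (x : ℝ) (n : ℤ) : ee (x + (n : ℝ)) = ee x := by
  rw [ee_add, ee_int, mul_one]

/-- first order Taylor expansion of a power -/
theorem pow_taylor (k : ℕ) (hk : 1 ≤ k) (y h : ℤ) :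
    ∃ c : ℤ, (y + h) ^ k = y ^ k + (k : ℤ) * y ^ (k - 1) * h + h ^ 2 * c := by
  obtain ⟨n, rfl⟩ : ∃ n, k = n + 1 := ⟨k - 1, by omega⟩
  clear hk
  induction n with
  | zero => exact ⟨0, by simp⟩
  | succ n ih =>
    obtain ⟨c, hc⟩ := ih
    refine ⟨c * (y + h) + ((n : ℤ) + 1) * y ^ n, ?_⟩
    rw [pow_succ, hc]
    simp only [Nat.add_sub_cancel]
    push_cast
    ring

theorem stp : StpStmt := by
  intro k p e r b m hk hp hr
  unfold Sc
  have hpe : p ^ e = p ^ (e - r) * p ^ r := by rw [← pow_add]; congr 1; omega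
  have hA : 0 < p ^ (e - r) := pow_pos hp _
  have hB : 0 < p ^ r := pow_pos hp _
  rw [show Finset.range (p ^ e) = Finset.range (p ^ (e - r) * p ^ r) by rw [← hpe],
    sum_split _ _ hA, Finset.sum_filter, Finset.mul_sum]
  apply Finset.sum_congr rfl
  intro y _
  set D : ℤ := (k : ℤ) * b * (y : ℤ) ^ (k - 1) + m with hD
  have key : ∀ z : ℕ, ee (((b * ((y + p ^ (e - r) * z : ℕ) : ℤ) ^ k +
      m * ((y + p ^ (e - r) * z : ℕ) : ℤ) : ℤ) : ℝ) / ((p ^ e : ℕ) : ℝ)) =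
      ee (((b * (y : ℤ) ^ k + m * (y : ℤ) : ℤ) : ℝ) / ((p ^ e : ℕ) : ℝ)) *
        ee (((D * (z : ℤ) : ℤ) : ℝ) / ((p ^ r : ℕ) : ℝ)) := by
    intro z
    obtain ⟨c, hc⟩ := pow_taylor k hk (y : ℤ) ((p : ℤ) ^ (e - r) * (z : ℤ))
    have h1 : (p : ℤ) ^ (e - r) * (p : ℤ) ^ (e - r) = (p : ℤ) ^ e * (p : ℤ) ^ (e - 2 * r) := by
      rw [← pow_add, ← pow_add]; congr 1; omega
    have h2 : (b * ((y + p ^ (e - r) * z : ℕ) : ℤ) ^ k + m * ((y + p ^ (e - r) * z : ℕ) : ℤ) : ℤ) =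
        (b * (y : ℤ) ^ k + m * (y : ℤ)) + (p : ℤ) ^ (e - r) * (D * (z : ℤ)) +
          (p : ℤ) ^ e * ((p : ℤ) ^ (e - 2 * r) * (z : ℤ) ^ 2 * c * b) := by
      push_cast
      rw [hc, hD]
      linear_combination (b * (z : ℤ) ^ 2 * c) * h1
    rw [h2, ← ee_add]
    have hpe' : ((p ^ e : ℕ) : ℝ) = ((p : ℝ) ^ (e - r)) * ((p ^ r : ℕ) : ℝ) := by
      rw [hpe]; push_cast; ring
    have hpe0 : ((p ^ e : ℕ) : ℝ) ≠ 0 := by
      have : 0 < p ^ e := pow_pos hp _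
      positivity
    have hr0 : ((p ^ r : ℕ) : ℝ) ≠ 0 := by positivity
    have hr1 : ((p : ℝ) ^ (e - r)) ≠ 0 := by positivity
    have h3 : ((((b * (y : ℤ) ^ k + m * (y : ℤ)) + (p : ℤ) ^ (e - r) * (D * (z : ℤ)) +
          (p : ℤ) ^ e * ((p : ℤ) ^ (e - 2 * r) * (z : ℤ) ^ 2 * c * b) : ℤ) : ℝ)) /
            ((p ^ e : ℕ) : ℝ) =
        (((b * (y : ℤ) ^ k + m * (y : ℤ) : ℤ) : ℝ) / ((p ^ e : ℕ) : ℝ) +
          ((D * (z : ℤ) : ℤ) : ℝ) / ((p ^ r : ℕ) : ℝ)) +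
          (((p : ℤ) ^ (e - 2 * r) * (z : ℤ) ^ 2 * c * b : ℤ) : ℝ) := by
      have h4 : ((D * (z : ℤ) : ℤ) : ℝ) / ((p ^ r : ℕ) : ℝ) =
          (p : ℝ) ^ (e - r) * ((D * (z : ℤ) : ℤ) : ℝ) / ((p ^ e : ℕ) : ℝ) := by
        rw [hpe']
        field_simp
      rw [h4]
      rw [← add_div, div_add' _ _ _ hpe0]
      congr 1
      push_cast
      ring
    rw [h3, ee_add_int]
  have hsum := sum_ee_div (p ^ r) hB D
  calc ∑ z ∈ Finset.range (p ^ r), ee (((b * ((y + p ^ (e - r) * z : ℕ) : ℤ) ^ k +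
      m * ((y + p ^ (e - r) * z : ℕ) : ℤ) : ℤ) : ℝ) / ((p ^ e : ℕ) : ℝ))
      = ∑ z ∈ Finset.range (p ^ r),
        ee (((b * (y : ℤ) ^ k + m * (y : ℤ) : ℤ) : ℝ) / ((p ^ e : ℕ) : ℝ)) *
        ee (((D * (z : ℤ) : ℤ) : ℝ) / ((p ^ r : ℕ) : ℝ)) := Finset.sum_congr rfl (fun z _ => key z)
    _ = _ := by
      rw [← Finset.mul_sum]
      have h5 : ∑ z ∈ Finset.range (p ^ r), ee (((D * (z : ℤ) : ℤ) : ℝ) / ((p ^ r : ℕ) : ℝ)) =
          ∑ j ∈ Finset.range (p ^ r), ee ((j : ℝ) / ((p ^ r : ℕ) : ℝ) * (D : ℝ)) := by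
        apply Finset.sum_congr rfl
        intro z _
        congr 1
        push_cast
        ring
      rw [h5, hsum]
      push_cast
      by_cases hD0 : ((p : ℤ) ^ r) ∣ D
      · rw [if_pos hD0, if_pos hD0, mul_comm]
      · rw [if_neg hD0, if_neg hD0, mul_zero, mul_zero]

end Pool.Agent.VM.H37
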